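import Pool.Agent.Lib.MP_0087d5_lcZE.ZDefs

/-!
# Certificates for graphs without a perfect matching: soundness, and the graphs which have to be tested
-/

set_option autoImplicit false

namespace ZER

open Relation

variable {n : ℕ}

/-- a perfect matching as an involution -/
def HP (G : SimpleGraph (Fin n)) : Prop := ∃ f : Fin n → Fin n, (∀ v, f (f v) = v) ∧ ∀ v, G.Adj v (f v)

theorem even_of_invol {α : Type} [Finite α] (f : α → α) (h1 : ∀ x, f (f x) = x) (h2 : ∀ x, f x ≠ x) :
    Even (Nat.card α) := by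
  classical
  have := Fintype.ofFinite α
  have h := Finset.sum_ninvolution (s := (Finset.univ : Finset α)) (f := fun _ => (1 : ZMod 2)) f
    (fun a => by decide) (fun a _ => h2 a) (fun a => Finset.mem_univ _) h1
  rw [Finset.sum_const, nsmul_eq_mul, mul_one, Finset.card_univ] at h
  rw [Nat.card_eq_fintype_card]
  exact (ZMod.natCast_eq_zero_iff_even).1 h

/-- the set of the vertices which are not fixed has even size -/
theorem even_moved (f : Fin n → Fin n) (h1 : ∀ x, f (f x) = x) : Even (Nat.card {x // f x ≠ x}) := by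
  refine even_of_invol (α := {x // f x ≠ x}) (fun x => ⟨f x.1, fun h => x.2 ?_⟩) (fun x => ?_) (fun x h => ?_)
  · rw [h1] at h
    exact h.symm
  · exact Subtype.ext (h1 x.1)
  · exact x.2 (congrArg Subtype.val h)

theorem mis_add (f : Fin n → Fin n) : mis f + Nat.card {x // f x ≠ x} = n := by
  classical
  have h : Nat.card ({x // f x = x} ⊕ {x // ¬ f x = x}) = n := by
    rw [Nat.card_congr (Equiv.sumCompl fun x => f x = x), Nat.card_eq_fintype_card, Fintype.card_fin]
  rw [Nat.card_sum] at h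
  exact h

/-- **soundness** -/
theorem viol_sound (G : SimpleGraph (Fin n)) (A : Fin n → Prop) (h : Viol G A) : ¬ HP G := by
  classical
  rintro ⟨f, h1, h2⟩
  have hsym : ∀ x y, rch G A x y → rch G A y x := by
    intro x y hxy
    induction hxy with
    | refl => exact ReflTransGen.refl
    | tail _ hst ih => exact ReflTransGen.head ⟨hst.2.1, hst.1, hst.2.2.symm⟩ ih
  have hA : ∀ x y, ¬ A x → rch G A x y → ¬ A y := by
    intro x y hx hxy
    induction hxy with
    | refl => exact hx
    | tail _ hst _ => exact hst.2.1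
  have hex : ∀ v : {v // oddRep G A v}, ∃ w, rch G A v.1 w ∧ A (f w) := by
    intro v
    by_contra hc
    push Not at hc
    have hcl : ∀ w, rch G A v.1 w → rch G A v.1 (f w) := fun w hw =>
      hw.tail ⟨hA _ _ v.2.1 hw, hc w hw, h2 w⟩
    have hev : Even (Nat.card {w // rch G A v.1 w}) :=
      even_of_invol (α := {w // rch G A v.1 w}) (fun w => ⟨f w.1, hcl w.1 w.2⟩) (fun w => Subtype.ext (h1 w.1))
        (fun w hw => (h2 w.1).ne (congrArg Subtype.val hw).symm)
    exact (Nat.not_even_iff_odd.2 v.2.2.2) hev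
  choose w hw1 hw2 using hex
  have hinj : Function.Injective (fun v : {v // oddRep G A v} => (⟨f (w v), hw2 v⟩ : {v // A v})) := by
    intro v v' hvv
    have e1 : f (w v) = f (w v') := congrArg Subtype.val hvv
    have e2 : w v = w v' := by rw [← h1 (w v), e1, h1]
    have h3 : rch G A v.1 v'.1 := (hw1 v).trans (by rw [e2]; exact hsym _ _ (hw1 v'))
    exact Subtype.ext (le_antisymm (v.2.2.1 _ h3) (v'.2.2.1 _ (hsym _ _ h3)))
  have := Nat.card_le_card_of_injective _ hinj
  unfold Viol at h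
  omega

theorem odd_sound (hn : Odd n) (G : SimpleGraph (Fin n)) : ¬ HP G := by
  rintro ⟨f, h1, h2⟩
  have := even_of_invol f h1 fun x hx => (h2 x).ne hx.symm
  rw [Nat.card_eq_fintype_card, Fintype.card_fin] at this
  exact (Nat.not_even_iff_odd.2 hn) this

/-- the vertices `< k` are made universal -/
def uni (G : SimpleGraph (Fin n)) (k : ℕ) : SimpleGraph (Fin n) where
  Adj x y := x ≠ y ∧ (G.Adj x y ∨ (x : ℕ) < k ∨ (y : ℕ) < k)
  symm := ⟨fun _ _ h => ⟨h.1.symm, h.2.elim (fun a => Or.inl a.symm) fun a => Or.inr a.symm⟩⟩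
  loopless := ⟨fun _ h => h.1 rfl⟩

/-- an additional edge -/
def ade (G : SimpleGraph (Fin n)) (u v : Fin n) : SimpleGraph (Fin n) where
  Adj x y := x ≠ y ∧ (G.Adj x y ∨ (x = u ∧ y = v) ∨ (x = v ∧ y = u))
  symm := ⟨fun _ _ h => ⟨h.1.symm, h.2.imp (fun h => h.symm)
    fun h => h.symm.imp (fun h => ⟨h.2, h.1⟩) fun h => ⟨h.2, h.1⟩⟩⟩
  loopless := ⟨fun _ h => h.1 rfl⟩

theorem uni_zero (G : SimpleGraph (Fin n)) : uni G 0 = G := by
  ext x y
  refine ⟨fun h => h.2.elim id fun h => absurd h (by omega), fun h => ⟨h.ne, Or.inl h⟩⟩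

theorem hp_top (hn : Even n) (G : SimpleGraph (Fin n)) : HP (uni G n) := by
  obtain ⟨m, hm⟩ := hn
  refine ⟨fun x => if h : (x : ℕ) % 2 = 0 then ⟨x + 1, by omega⟩ else ⟨x - 1, by omega⟩, fun v => ?_, fun v => ⟨fun h => ?_, Or.inr (Or.inl v.2)⟩⟩
  · by_cases h : (v : ℕ) % 2 = 0
    · have h2 : ¬ ((v : ℕ) + 1) % 2 = 0 := by omega
      apply Fin.ext
      simp [h, h2]
    · have h2 : ((v : ℕ) - 1) % 2 = 0 := by omega
      apply Fin.ext
      simp [h, h2]
      omega
  · have h3 := congrArg Fin.val h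
    by_cases h : (v : ℕ) % 2 = 0
    · simp [h] at h3
    · simp [h] at h3
      omega

theorem exists_k (hn : Even n) (G : SimpleGraph (Fin n)) (h : ¬ HP G) : ∃ k : Fin n, ¬ HP (uni G k) ∧ HP (uni G (k + 1)) := by
  classical
  have hex : ∃ k, HP (uni G k) := ⟨n, hp_top hn G⟩
  have h1 := Nat.find_spec hex
  have h2 : Nat.find hex ≤ n := Nat.find_le (hp_top hn G)
  have h0 : Nat.find hex ≠ 0 := by
    intro h0
    rw [h0, uni_zero] at h1
    exact h h1
  refine ⟨⟨Nat.find hex - 1, by omega⟩, Nat.find_min hex (by show Nat.find hex - 1 < _; omega), ?_⟩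
  have e : Nat.find hex - 1 + 1 = Nat.find hex := by omega
  show HP (uni G (Nat.find hex - 1 + 1))
  rw [e]
  exact h1

/-- a perfect matching without the edge between `u` and `f u` -/
theorem del_edge {G : SimpleGraph (Fin n)} {f : Fin n → Fin n} {u : Fin n} (h1 : ∀ x, f (f x) = x) (h0 : ∀ x, f x ≠ x)
    (h2 : ∀ x, x ≠ u → f x ≠ u → G.Adj x (f x)) :
    ∃ f', Mt G f' ∧ mis f' = 2 ∧ f' u = u ∧ f' (f u) = f u := by
  classical
  refine ⟨fun x => if x = u ∨ x = f u then x else f x, ⟨fun x => ?_, fun x => ?_⟩, ?_, ?_, ?_⟩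
  · by_cases hx : x = u ∨ x = f u
    · simp [hx]
    · have hx' : ¬ (f x = u ∨ f x = f u) := by
        rintro (h | h)
        · exact hx (Or.inr (by rw [← h, h1]))
        · exact hx (Or.inl (by rw [← h1 x, h, h1]))
      simp [hx, hx', h1]
  · by_cases hx : x = u ∨ x = f u
    · simp [hx]
    · simp only [hx, if_false]
      intro _
      push Not at hx
      exact h2 x hx.1 fun h => hx.2 (by rw [← h, h1])
  · unfold mis
    have e : ∀ x, (if x = u ∨ x = f u then x else f x) = x ↔ x ∈ ({u, f u} : Finset (Fin n)) := by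
      intro x
      rw [Finset.mem_insert, Finset.mem_singleton]
      by_cases hx : x = u ∨ x = f u
      · simp [hx]
      · simp only [hx, if_false, iff_false]
        exact h0 x
    rw [Nat.card_congr (Equiv.subtypeEquivRight e), Nat.card_eq_fintype_card, Fintype.card_coe,
      Finset.card_pair (h0 u).symm]
  · simp
  · simp

theorem exists_mis2 (G : SimpleGraph (Fin n)) (k : Fin n) (h : HP (uni G (k + 1))) : ∃ f, Mt (uni G k) f ∧ mis f = 2 := by
  obtain ⟨f, h1, h2⟩ := h
  obtain ⟨f', h3, h4, -⟩ := del_edge (G := uni G k) (u := k) h1 (fun x => (h2 x).ne') fun x hx hfx => by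
    refine ⟨(h2 x).ne, (h2 x).2.imp id fun h => ?_⟩
    have e1 : (x : ℕ) ≠ k := fun h => hx (Fin.ext h)
    have e2 : (f x : ℕ) ≠ k := fun h => hfx (Fin.ext h)
    omega
  exact ⟨f', h3, h4⟩

theorem hp_of_mis_zero {G : SimpleGraph (Fin n)} {f : Fin n → Fin n} (h : Mt G f) (h0 : mis f = 0) : HP G := by
  refine ⟨f, h.1, fun v => h.2 v fun hv => ?_⟩
  unfold mis at h0
  rw [Nat.card_eq_zero] at h0
  rcases h0 with h0 | h0
  · exact h0.false ⟨v, hv⟩
  · exact h0.not_finite inferInstance

theorem two_le_mis (hn : Even n) {G : SimpleGraph (Fin n)} (h : ¬ HP G) (f : Fin n → Fin n) (hf : Mt G f) : 2 ≤ mis f := by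
  have h0 : mis f ≠ 0 := fun h0 => h (hp_of_mis_zero hf h0)
  have h1 := mis_add f
  obtain ⟨a, ha⟩ := even_moved f hf.1
  obtain ⟨b, hb⟩ := hn
  omega

theorem swap_edge {G : SimpleGraph (Fin n)} {f : Fin n → Fin n} (hf : Mt G f) {u v : Fin n} (huv : u ≠ v) (hm : mis f = 2)
    (hu : f u = u) (hv : f v = v) : HP (ade G u v) := by
  classical
  have hfix : ∀ x, f x = x → x = u ∨ x = v := by
    intro x hx
    by_contra hc
    push Not at hc
    have h3 : Nat.card ({u, v, x} : Finset (Fin n)) ≤ mis f := by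
      unfold mis
      refine Nat.card_le_card_of_injective (fun a : ({u, v, x} : Finset (Fin n)) => (⟨a.1, ?_⟩ : {x // f x = x})) ?_
      · have := a.2
        rw [Finset.mem_insert, Finset.mem_insert, Finset.mem_singleton] at this
        rcases this with h | h | h
        · rw [h]; exact hu
        · rw [h]; exact hv
        · rw [h]; exact hx
      · intro a b hab
        have h5 : a.1 = b.1 := congrArg (fun z : {x // f x = x} => z.1) hab
        exact Subtype.ext h5
    have h4 : Nat.card ({u, v, x} : Finset (Fin n)) = 3 := by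
      rw [Nat.card_eq_fintype_card, Fintype.card_coe]
      exact Finset.card_eq_three.2 ⟨u, v, x, huv, fun h => hc.1 h.symm, fun h => hc.2 h.symm, rfl⟩
    omega
  have hne : ∀ x, x ≠ u → x ≠ v → f x ≠ x := fun x h1 h2 h3 => (hfix x h3).elim h1 h2
  refine ⟨fun x => if x = u then v else if x = v then u else f x, fun x => ?_, fun x => ?_⟩
  · by_cases h1 : x = u
    · simp [h1, huv.symm]
    · by_cases h2 : x = v
      · simp [h2, huv.symm]
      · have h3 : f x ≠ u := fun h => h1 (by rw [← hf.1 x, h, hu])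
        have h4 : f x ≠ v := fun h => h2 (by rw [← hf.1 x, h, hv])
        simp [h1, h2, h3, h4, hf.1]
  · by_cases h1 : x = u
    · subst h1
      simp only [if_true]
      exact ⟨huv, Or.inr (Or.inl ⟨rfl, rfl⟩)⟩
    · by_cases h2 : x = v
      · subst h2
        simp only [h1, if_false, if_true]
        exact ⟨huv.symm, Or.inr (Or.inr ⟨rfl, rfl⟩)⟩
      · simp only [h1, h2, if_false]
        have := hf.2 x (hne x h1 h2)
        exact ⟨this.ne, Or.inl this⟩

theorem exists_other {f : Fin n → Fin n} (hm : mis f = 2) {v : Fin n} (_hv : f v = v) : ∃ u, u ≠ v ∧ f u = u := by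
  by_contra hc
  push Not at hc
  have h1 : mis f ≤ 1 := by
    unfold mis
    rw [Nat.card_eq_fintype_card]
    classical
    refine Fintype.card_le_one_iff.2 fun a b => Subtype.ext ?_
    have ha : a.1 = v := by
      by_contra h
      exact hc a.1 h a.2
    have hb : b.1 = v := by
      by_contra h
      exact hc b.1 h b.2
    rw [ha, hb]
  omega

theorem dd_iff {G : SimpleGraph (Fin n)} (h : ¬ HP G) (v : Fin n) : DD G v ↔ ∃ u, HP (ade G u v) := by
  constructor
  · rintro ⟨f, hf, hm, hv⟩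
    obtain ⟨u, huv, hu⟩ := exists_other hm hv
    exact ⟨u, swap_edge hf huv hm hu hv⟩
  · rintro ⟨u, f, h1, h2⟩
    have hfu : f u = v := by
      by_contra hc
      apply h
      refine ⟨f, h1, fun x => ?_⟩
      rcases (h2 x).2 with h3 | h3 | h3
      · exact h3
      · exact absurd (by rw [← h3.1]; exact h3.2) hc
      · exact absurd (by rw [← h3.2, h1, h3.1]) hc
    obtain ⟨f', h3, h4, h5, h6⟩ := del_edge (G := G) (u := u) h1 (fun x => (h2 x).ne') fun x hx hfx => by
      rcases (h2 x).2 with h3 | h3 | h3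
      · exact h3
      · exact absurd h3.1 hx
      · exact absurd h3.2 hfx
    exact ⟨f', h3, h4, by rw [← hfu]; exact h6⟩

theorem dd_nonempty {G : SimpleGraph (Fin n)} (h : ∃ f, Mt G f ∧ mis f = 2) : ∃ v, DD G v := by
  obtain ⟨f, hf, hm⟩ := h
  have h0 : Nat.card {x // f x = x} ≠ 0 := by
    unfold mis at hm
    omega
  rw [Nat.card_ne_zero] at h0
  obtain ⟨⟨v, hv⟩⟩ := h0.1
  exact ⟨v, f, hf, hm, hv⟩

/-- universal vertices are in `NA` -/
theorem uni_na {G : SimpleGraph (Fin n)} {k : ℕ} (h : ¬ HP (uni G k)) (h1 : ∃ f, Mt (uni G k) f ∧ mis f = 2) {x : Fin n}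
    (hx : (x : ℕ) < k) : NA (uni G k) (DD (uni G k)) x := by
  have hno : ¬ DD (uni G k) x := by
    rintro ⟨f, hf, hm, hfx⟩
    obtain ⟨u, hux, hu⟩ := exists_other hm hfx
    have h2 := swap_edge hf hux hm hu hfx
    apply h
    obtain ⟨f', h3, h4⟩ := h2
    refine ⟨f', h3, fun v => ?_⟩
    rcases (h4 v).2 with h5 | h5 | h5
    · exact h5
    · rw [h5.2, h5.1]
      exact ⟨hux, Or.inr (Or.inr hx)⟩
    · rw [h5.2, h5.1]
      exact ⟨hux.symm, Or.inr (Or.inl hx)⟩
  obtain ⟨u, hu⟩ := dd_nonempty h1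
  refine ⟨hno, u, hu, fun hxu => hno (hxu ▸ hu), Or.inr (Or.inl hx)⟩

theorem viol_congr (G : SimpleGraph (Fin n)) {k : ℕ} {A : Fin n → Prop} (hA : ∀ x : Fin n, (x : ℕ) < k → A x) :
    Viol (uni G k) A ↔ Viol G A := by
  have e : (fun x y => ¬ A x ∧ ¬ A y ∧ (uni G k).Adj x y) = (fun x y => ¬ A x ∧ ¬ A y ∧ G.Adj x y) := by
    funext x y
    apply propext
    refine and_congr_right fun hx => and_congr_right fun hy => ?_
    constructor
    · rintro ⟨_, h | h | h⟩
      · exact h
      · exact absurd (hA x h) hx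
      · exact absurd (hA y h) hy
    · exact fun h => ⟨h.ne, Or.inl h⟩
  unfold Viol oddRep rch
  rw [e]

end ZER
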