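import Mathlib

/-!
# Tight sets in Hall's theorem
-/

set_option autoImplicit false

namespace ZER

open Finset in
/-- For a relation which satisfies the condition of Hall there is a set `S` with as many neighbours as elements, whose neighbours are the points which are used by all injective choices. -/
theorem hall_tight {α β : Type*} [Fintype α] [Fintype β] (R : α → β → Prop)
    (h : ∃ f : α → β, Function.Injective f ∧ ∀ a, R a (f a)) :
    ∃ S : Finset α, (∀ b, (∃ a ∈ S, R a b) ↔ ¬ ∃ f : α → β, Function.Injective f ∧ (∀ a, R a (f a)) ∧ ∀ a, f a ≠ b) ∧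
      Nat.card {b // ∃ a ∈ S, R a b} = S.card := by
  classical
  have hall := (Fintype.all_card_le_filter_rel_iff_exists_injective R).mpr h
  set N : Finset α → Finset β := fun A => univ.filter fun b => ∃ a ∈ A, R a b with hN
  have memN : ∀ A b, b ∈ N A ↔ ∃ a ∈ A, R a b := fun A b => by simp [hN]
  have hall' : ∀ A, A.card ≤ (N A).card := hall
  set T : Finset α → Prop := fun A => (N A).card = A.card with hT
  have union : ∀ A B, T A → T B → T (A ∪ B) := by
    intro A B hA hB
    have e1 : N (A ∪ B) = N A ∪ N B := by
      ext b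
      rw [mem_union, memN, memN, memN]
      constructor
      · rintro ⟨a, ha, hr⟩
        rcases mem_union.mp ha with h1 | h1
        · exact Or.inl ⟨a, h1, hr⟩
        · exact Or.inr ⟨a, h1, hr⟩
      · rintro (⟨a, ha, hr⟩ | ⟨a, ha, hr⟩)
        · exact ⟨a, mem_union_left _ ha, hr⟩
        · exact ⟨a, mem_union_right _ ha, hr⟩
    have e2 : N (A ∩ B) ⊆ N A ∩ N B := by
      intro b hb
      rw [memN] at hb
      obtain ⟨a, ha, hr⟩ := hb
      rw [mem_inter, memN, memN]
      exact ⟨⟨a, (mem_inter.mp ha).1, hr⟩, ⟨a, (mem_inter.mp ha).2, hr⟩⟩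
    have c1 := card_union_add_card_inter (N A) (N B)
    have c2 := card_union_add_card_inter A B
    have c3 := card_le_card e2
    have c4 := hall' (A ∩ B)
    have c5 := hall' (A ∪ B)
    have hA' : (N A).card = A.card := hA
    have hB' : (N B).card = B.card := hB
    show (N (A ∪ B)).card = (A ∪ B).card
    rw [e1] at c5 ⊢
    omega
  have hTe : T ∅ := by
    show (N ∅).card = (∅ : Finset α).card
    have : N ∅ = ∅ := by
      ext b
      rw [memN]
      simp
    rw [this]
    simp
  set S : Finset α := (univ.filter fun A => T A).sup id with hS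
  have hTS : T S := by
    refine Finset.sup_induction (p := T) hTe (fun A hA B hB => union A B hA hB) ?_
    intro A hA
    exact (mem_filter.mp hA).2
  have hle : ∀ A, T A → A ⊆ S := by
    intro A hA
    exact Finset.le_sup (f := id) (mem_filter.mpr ⟨mem_univ A, hA⟩)
  refine ⟨S, ?_, ?_⟩
  · intro b
    constructor
    · rintro hb ⟨f, hf, hr, hne⟩
      have hb' : b ∈ N S := (memN S b).mpr hb
      have h1 : S.image f ⊆ (N S).erase b := by
        intro c hc
        obtain ⟨a, ha, rfl⟩ := mem_image.mp hc
        exact mem_erase.mpr ⟨hne a, (memN S _).mpr ⟨a, ha, hr a⟩⟩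
      have h2 := card_le_card h1
      rw [card_image_of_injective S hf, card_erase_of_mem hb'] at h2
      have h3 : (N S).card = S.card := hTS
      have h4 : 0 < (N S).card := card_pos.mpr ⟨b, hb'⟩
      omega
    · intro hno
      have h1 : ¬ ∀ A : Finset α, A.card ≤ (univ.filter fun c => ∃ a ∈ A, R a c ∧ c ≠ b).card := by
        intro hc
        obtain ⟨f, hf, hr⟩ := (Fintype.all_card_le_filter_rel_iff_exists_injective (fun a c => R a c ∧ c ≠ b)).mp hc
        exact hno ⟨f, hf, fun a => (hr a).1, fun a => (hr a).2⟩
      obtain ⟨A, hA⟩ := not_forall.mp h1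
      rw [not_le] at hA
      have h2 : (N A).erase b ⊆ univ.filter fun c => ∃ a ∈ A, R a c ∧ c ≠ b := by
        intro c hc
        obtain ⟨h3, h4⟩ := mem_erase.mp hc
        obtain ⟨a, ha, hr⟩ := (memN A c).mp h4
        exact mem_filter.mpr ⟨mem_univ c, a, ha, hr, h3⟩
      have h3 := card_le_card h2
      have h4 := hall' A
      by_cases hb : b ∈ N A
      · rw [card_erase_of_mem hb] at h3
        have hTA : T A := by
          show (N A).card = A.card
          omega
        obtain ⟨a, ha, hr⟩ := (memN A b).mp hb
        exact ⟨a, hle A hTA ha, hr⟩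
      · rw [erase_eq_of_notMem hb] at h3
        omega
  · have h1 : (N S).card = S.card := hTS
    rw [← h1, Nat.card_eq_fintype_card, Fintype.card_subtype]

end ZER
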