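import Mathlib

/-!
# Certificates for graphs without a perfect matching: definitions

A matching of a graph is given by an involution `f`; the fixed points of `f` are the vertices which are not covered.
-/

set_option autoImplicit false

namespace ZER

open Relation

variable {n : ℕ}

/-- `f` is a matching of `G` -/
def Mt (G : SimpleGraph (Fin n)) (f : Fin n → Fin n) : Prop := (∀ x, f (f x) = x) ∧ ∀ x, f x ≠ x → G.Adj x (f x)

/-- the number of the vertices which are not covered -/
noncomputable def mis (f : Fin n → Fin n) : ℕ := Nat.card {x // f x = x}

/-- the vertices which are not covered by some matching with only two uncovered vertices -/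
def DD (G : SimpleGraph (Fin n)) (v : Fin n) : Prop := ∃ f, Mt G f ∧ mis f = 2 ∧ f v = v

/-- the neighbours of `D` outside of `D` -/
def NA (G : SimpleGraph (Fin n)) (D : Fin n → Prop) (v : Fin n) : Prop := ¬ D v ∧ ∃ u, D u ∧ G.Adj v u

/-- `w` can be reached from `v` in the complement of `A` -/
def rch (G : SimpleGraph (Fin n)) (A : Fin n → Prop) : Fin n → Fin n → Prop :=
  ReflTransGen fun x y => ¬ A x ∧ ¬ A y ∧ G.Adj x y

/-- `v` is the least vertex of an odd component of the complement of `A` -/
def oddRep (G : SimpleGraph (Fin n)) (A : Fin n → Prop) (v : Fin n) : Prop :=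
  ¬ A v ∧ (∀ w, rch G A v w → v ≤ w) ∧ Odd (Nat.card {w // rch G A v w})

/-- the complement of `A` has more odd components than `A` has vertices -/
def Viol (G : SimpleGraph (Fin n)) (A : Fin n → Prop) : Prop :=
  Nat.card {v // A v} < Nat.card {v // oddRep G A v}

end ZER
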