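import Pool.Agent.Lib.MP_0087d5_lcZE.ZN
import Pool.Agent.Lib.MP_0087d5_lcMT.Y1
import Pool.Agent.Lib.MP_0087d5_lcMT.NC

/-!
# The errorless test
-/

set_option autoImplicit false
set_option linter.all false

namespace ZER

open Relation Pool.Agent Pool.Agent.PMNC MTC

theorem hp_iff {n : ℕ} {G : SimpleGraph (Fin n)} : HasPM G ↔ HP G := hasPM_iff

theorem card_true (n : ℕ) : Nat.card {a : Fin n // True} = n := by
  rw [Nat.card_congr (Equiv.subtypeUnivEquiv fun _ => trivial), Nat.card_eq_fintype_card, Fintype.card_fin]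

theorem noP_sound {P : ∀ n : ℕ, SimpleGraph (Fin n) → Fin n × (Fin n × Fin n) → Prop} {n : ℕ} {G : SimpleGraph (Fin n)}
    (h : NoP P n G) : ¬ HasPM G := by
  rw [hp_iff]
  rcases h with h | ⟨k, h⟩
  · rw [card_true] at h
    exact odd_sound h G
  · exact viol_sound G _ h

theorem noP_complete {P : ∀ n : ℕ, SimpleGraph (Fin n) → Fin n × (Fin n × Fin n) → Prop} {n : ℕ} {G : SimpleGraph (Fin n)}
    (hP : ∀ e, P n G e ↔ HasPM (TT n G e)) (h : ¬ HasPM G) : NoP P n G := by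
  rw [hp_iff] at h
  rcases Nat.even_or_odd n with hn | hn
  · obtain ⟨k, hk1, hk2⟩ := exists_k hn G h
    refine Or.inr ⟨k, ?_⟩
    have h1 := exists_mis2 G k hk2
    have hD : (fun v => ∃ u, P n G (k, (u, v))) = DD (uni G (k : ℕ)) := by
      funext v
      apply propext
      rw [dd_iff hk1]
      refine exists_congr fun u => ?_
      rw [hP, hp_iff]
      exact Iff.rfl
    rw [hD]
    have h2 := ge_ineq (uni G (k : ℕ)) h1 (two_le_mis hn hk1)
    exact (viol_congr G fun x hx => uni_na hk1 h1 hx).1 h2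
  · exact Or.inl (by rw [card_true]; exact hn)

/-- **The errorless test.** There are `Yes` and `No` in NC with `Yes G → HasPM G`, `No G → ¬ HasPM G`, and for every `n` at most `2 ^ (n ^ (1 + ε))`
graphs with `n` vertices satisfy neither. -/
theorem zero_error (ε : ℝ) (hε : 0 < ε) : ∃ Yes No : ∀ n : ℕ, SimpleGraph (Fin n) → Prop, PMNC.InNC Yes ∧ PMNC.InNC No ∧
    (∀ n G, Yes n G → HasPM G) ∧ (∀ n G, No n G → ¬ HasPM G) ∧
    ∀ n : ℕ, (Nat.card {G : SimpleGraph (Fin n) // ¬ Yes n G ∧ ¬ No n G} : ℝ) ≤ (2 : ℝ) ^ ((n : ℝ) ^ (1 + ε)) := by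
  obtain ⟨C, n₀, hn₀, hU⟩ := universal ε hε
  obtain ⟨Y, hY1, hY2, hY3⟩ := nc_defP C def_self def_self
  obtain ⟨P, hP1, hP2, hP3⟩ := nc_def C (B := fun n => Fin n × (Fin n × Fin n)) (A := fun n G _ => G) (T := TT)
    (DefP.adj (Tm.fst (F := fun n => Fin n) (H := fun n => Fin n) (Tm.snd Tm.id))
      (Tm.snd (F := fun n => Fin n) (H := fun n => Fin n) (Tm.snd Tm.id))) def_TT
  refine ⟨fun n G => (n ≤ n₀ ∧ HasPM G) ∨ Y n G, fun n G => (n ≤ n₀ ∧ ¬ HasPM G) ∨ NoP P n G, ?_, ?_, ?_, ?_, ?_⟩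
  · exact PMNC.InNC.or (inNC_of_defP (defP_small n₀ (fun n G => HasPM G))) hY1
  · exact PMNC.InNC.or (inNC_of_defP (defP_small n₀ (fun n G => ¬ HasPM G))) (inNC_of_defP (def_NoP hP1))
  · rintro n G (h | h)
    · exact h.2
    · exact hY2 n G h
  · rintro n G (h | h)
    · exact h.2
    · exact noP_sound h
  · intro n
    rcases Nat.lt_or_ge n₀ n with hn | hn
    · refine le_trans ?_ (hU n hn.le)
      rw [Nat.cast_le]
      refine Nat.card_le_card_of_injective (fun G : {G : SimpleGraph (Fin n) // ¬ ((n ≤ n₀ ∧ HasPM G) ∨ Y n G) ∧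
        ¬ ((n ≤ n₀ ∧ ¬ HasPM G) ∨ NoP P n G)} => (⟨G.1, ?_⟩ : {A : SimpleGraph (Fin n) // ∃ G : SimpleGraph (Fin n), HasPM G ∧ ¬ OKp C G A})) ?_
      · by_contra hc
        push Not at hc
        have hn2 : 2 ≤ n := hn₀.trans hn.le
        apply G.2.2
        refine Or.inr (noP_complete (fun e => ⟨hP2 n G.1 e, fun h => ?_⟩) fun h => ?_)
        · obtain ⟨m, K, q, t, g, y, hq, hm, hK, hqC, ht, hi⟩ := hc _ h
          exact hP3 n hn2 G.1 e m K q t g y hq hm hK hqC ht hi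
        · obtain ⟨m, K, q, t, g, y, hq, hm, hK, hqC, ht, hi⟩ := hc _ h
          exact G.2.1 (Or.inr (hY3 n hn2 G.1 m K q t g y hq hm hK hqC ht hi))
      · intro a b hab
        exact Subtype.ext (congrArg (fun z : {A : SimpleGraph (Fin n) // ∃ G : SimpleGraph (Fin n), HasPM G ∧ ¬ OKp C G A} => z.1) hab)
    · have h0 : IsEmpty {G : SimpleGraph (Fin n) // ¬ ((n ≤ n₀ ∧ HasPM G) ∨ Y n G) ∧ ¬ ((n ≤ n₀ ∧ ¬ HasPM G) ∨ NoP P n G)} := by
        refine ⟨fun G => ?_⟩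
        by_cases h : HasPM G.1
        · exact G.2.1 (Or.inl ⟨hn, h⟩)
        · exact G.2.2 (Or.inl ⟨hn, h⟩)
      rw [Nat.card_of_isEmpty, Nat.cast_zero]
      positivity

end ZER
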