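import Pool.Agent.Lib.MP_0087d5_lcZE.ZDefs

/-!
# A maximal barrier: the theorem of Tutte on a set of vertices, parity, and the easy inequality of Berge, in terms of `oddRep`
-/

set_option autoImplicit false

namespace ZER

open Relation

variable {n : ℕ}

theorem rch_symm (G : SimpleGraph (Fin n)) (A : Fin n → Prop) {v w : Fin n} (h : rch G A v w) :
    rch G A w v := by
  unfold rch at *
  induction h with
  | refl => exact ReflTransGen.refl
  | tail _ h2 ih => exact ReflTransGen.head ⟨h2.2.1, h2.1, h2.2.2.symm⟩ ih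

theorem rch_not (G : SimpleGraph (Fin n)) (A : Fin n → Prop) {v w : Fin n} (h : rch G A v w)
    (hv : ¬ A v) : ¬ A w := by
  unfold rch at h
  induction h with
  | refl => exact hv
  | tail _ h2 _ => exact h2.2.1

/-- odd components and their least vertices -/
theorem oc_eq (G : SimpleGraph (Fin n)) (A : Fin n → Prop) {X : Type} [Finite X]
    (H : SimpleGraph X) (φ : X → Fin n) (hφ : Function.Injective φ)
    (hr : ∀ x, ¬ A x ↔ ∃ a, φ a = x) (hadj : ∀ a b, H.Adj a b ↔ G.Adj (φ a) (φ b)) :
    Nat.card {v // oddRep G A v} = H.oddComponents.ncard := by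
  classical
  have key : ∀ a w, rch G A (φ a) w ↔ ∃ b, φ b = w ∧ H.Reachable a b := by
    intro a w
    constructor
    · intro h
      unfold rch at h
      induction h with
      | refl => exact ⟨a, rfl, SimpleGraph.Reachable.refl a⟩
      | tail _ h2 ih =>
        obtain ⟨b, hb, hab⟩ := ih
        obtain ⟨c, hc⟩ := (hr _).mp h2.2.1
        refine ⟨c, hc, hab.trans (SimpleGraph.Adj.reachable ?_)⟩
        rw [hadj, hb, hc]
        exact h2.2.2
    · rintro ⟨b, rfl, hab⟩
      rw [SimpleGraph.reachable_iff_reflTransGen] at hab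
      induction hab with
      | refl => exact ReflTransGen.refl
      | tail _ h2 ih =>
        exact ReflTransGen.tail ih ⟨(hr _).mpr ⟨_, rfl⟩, (hr _).mpr ⟨_, rfl⟩, (hadj _ _).mp h2⟩
  have cardK : ∀ a, Nat.card {w // rch G A (φ a) w} = (H.connectedComponentMk a).supp.ncard := by
    intro a
    have h1 : ∀ w, rch G A (φ a) w ↔ w ∈ φ '' (H.connectedComponentMk a).supp := by
      intro w
      rw [key]
      constructor
      · rintro ⟨b, rfl, hab⟩
        exact ⟨b, SimpleGraph.ConnectedComponent.eq.mpr hab.symm, rfl⟩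
      · rintro ⟨b, hb, rfl⟩
        exact ⟨b, rfl, (SimpleGraph.ConnectedComponent.eq.mp hb).symm⟩
    rw [← Set.ncard_image_of_injective _ hφ, ← Nat.card_coe_set_eq]
    exact Nat.card_congr (Equiv.subtypeEquivRight h1)
  have hch : ∀ v : {v // oddRep G A v}, ∃ a, φ a = v.1 := fun v => (hr _).mp v.2.1
  choose pr hpr using hch
  have hodd : ∀ v : {v // oddRep G A v}, H.connectedComponentMk (pr v) ∈ H.oddComponents := by
    intro v
    show Odd (H.connectedComponentMk (pr v)).supp.ncard
    rw [← cardK, hpr]
    exact v.2.2.2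
  rw [← Nat.card_coe_set_eq]
  refine Nat.card_eq_of_bijective (fun v => (⟨H.connectedComponentMk (pr v), hodd v⟩ : H.oddComponents)) ⟨?_, ?_⟩
  · intro v w hvw
    have h1 : H.connectedComponentMk (pr v) = H.connectedComponentMk (pr w) := congrArg Subtype.val hvw
    have h2 := SimpleGraph.ConnectedComponent.eq.mp h1
    have h3 : rch G A v.1 w.1 := by
      rw [← hpr v, key]
      exact ⟨pr w, hpr w, h2⟩
    have h4 : rch G A w.1 v.1 := rch_symm G A h3
    exact Subtype.ext (le_antisymm (v.2.2.1 _ h3) (w.2.2.1 _ h4))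
  · rintro ⟨c, hc⟩
    obtain ⟨a, rfl⟩ := c.exists_rep
    obtain ⟨v, hv, hmin⟩ := Finset.exists_min_image (Finset.univ.filter fun w => rch G A (φ a) w) id
      ⟨φ a, Finset.mem_filter.mpr ⟨Finset.mem_univ _, ReflTransGen.refl⟩⟩
    have hav : rch G A (φ a) v := (Finset.mem_filter.mp hv).2
    obtain ⟨b, hb, hab⟩ := (key a v).mp hav
    have hmk : H.connectedComponentMk b = H.connectedComponentMk a :=
      SimpleGraph.ConnectedComponent.eq.mpr hab.symm
    have hrep : oddRep G A v := by
      refine ⟨(hr v).mpr ⟨b, hb⟩, ?_, ?_⟩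
      · intro w hw
        exact hmin w (Finset.mem_filter.mpr ⟨Finset.mem_univ _, hav.trans hw⟩)
      · rw [← hb, cardK, hmk]
        exact hc
    refine ⟨⟨v, hrep⟩, Subtype.ext ?_⟩
    show H.connectedComponentMk (pr ⟨v, hrep⟩) = Quot.mk _ a
    have h5 : pr ⟨v, hrep⟩ = b := hφ ((hpr ⟨v, hrep⟩).trans hb.symm)
    rw [h5]
    exact hmk

theorem cd_compl (P : Fin n → Prop) : Nat.card {x // P x} + Nat.card {x // ¬ P x} = n := by
  classical
  rw [Nat.card_eq_fintype_card, Nat.card_eq_fintype_card, Fintype.card_subtype_compl, Fintype.card_fin]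
  have := Fintype.card_subtype_le P
  rw [Fintype.card_fin] at this
  omega

theorem cd_congr {P Q : Fin n → Prop} (h : ∀ x, P x ↔ Q x) : Nat.card {x // P x} = Nat.card {x // Q x} :=
  Nat.card_congr (Equiv.subtypeEquivRight h)

theorem cd_or {P Q : Fin n → Prop} (h : ∀ x, P x → ¬ Q x) :
    Nat.card {x // P x ∨ Q x} = Nat.card {x // P x} + Nat.card {x // Q x} := by
  classical
  rw [Nat.card_eq_fintype_card, Nat.card_eq_fintype_card, Nat.card_eq_fintype_card,
    Fintype.card_subtype, Fintype.card_subtype, Fintype.card_subtype, Finset.filter_or,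
    Finset.card_union_of_disjoint]
  rw [Finset.disjoint_filter]
  exact fun x _ => h x

theorem cd_mono {P Q : Fin n → Prop} (h : ∀ x, P x → Q x) :
    Nat.card {x // P x} ≤ Nat.card {x // Q x} := by
  classical
  rw [Nat.card_eq_fintype_card, Nat.card_eq_fintype_card, Fintype.card_subtype, Fintype.card_subtype]
  exact Finset.card_le_card fun x hx => Finset.mem_filter.mpr ⟨Finset.mem_univ _, h x (Finset.mem_filter.mp hx).2⟩

theorem cd_one (v : Fin n) : Nat.card {x // x = v} = 1 := by
  rw [Nat.card_eq_fintype_card]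
  exact Fintype.card_subtype_eq v

/-- parity -/
theorem oc_parity (G : SimpleGraph (Fin n)) (A : Fin n → Prop) :
    (Nat.card {v // oddRep G A v} + Nat.card {v // A v}) % 2 = n % 2 := by
  classical
  have h1 := oc_eq G A (X := {x // ¬ A x}) (G.comap Subtype.val) Subtype.val Subtype.val_injective
    (fun x => ⟨fun h => ⟨⟨x, h⟩, rfl⟩, fun ⟨a, ha⟩ => ha ▸ a.2⟩) (fun a b => Iff.rfl)
  have h2 := SimpleGraph.odd_ncard_oddComponents (G := (G.comap Subtype.val : SimpleGraph {x // ¬ A x}))
  rw [← h1] at h2
  have h3 := cd_compl A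
  rw [Nat.odd_iff, Nat.odd_iff] at h2
  omega

/-- the theorem of Tutte on a set of vertices -/
theorem tutte_on (G : SimpleGraph (Fin n)) (W : Fin n → Prop) :
    (∃ f : Fin n → Fin n, (∀ x, f (f x) = x) ∧ (∀ x, ¬ W x → f x = x) ∧
      (∀ x, W x → G.Adj x (f x))) ∨
    ∃ S : Fin n → Prop, (∀ x, S x → W x) ∧
      Nat.card {x // S x} < Nat.card {v // oddRep G (fun x => ¬ W x ∨ S x) v} := by
  classical
  by_cases hM : ∃ M : SimpleGraph.Subgraph (G.comap Subtype.val : SimpleGraph {x // W x}), M.IsPerfectMatching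
  · left
    obtain ⟨M, hM⟩ := hM
    rw [SimpleGraph.Subgraph.isPerfectMatching_iff] at hM
    choose g hg hu using hM
    have hgg : ∀ a, g (g a) = a := fun a => (hu (g a) a (hg a).symm).symm
    refine ⟨fun x => if h : W x then (g ⟨x, h⟩).1 else x, ?_, ?_, ?_⟩
    · intro x
      by_cases h : W x
      · have h1 : W (g ⟨x, h⟩).1 := (g ⟨x, h⟩).2
        simp only [dif_pos h, dif_pos h1]
        have h2 : (⟨(g ⟨x, h⟩).1, h1⟩ : {x // W x}) = g ⟨x, h⟩ := rfl
        rw [h2, hgg]
      · simp only [dif_neg h]
    · intro x h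
      simp only [dif_neg h]
    · intro x h
      simp only [dif_pos h]
      exact M.adj_sub (hg ⟨x, h⟩)
  · right
    rw [SimpleGraph.tutte] at hM
    push Not at hM
    obtain ⟨u, hu⟩ := hM
    refine ⟨fun x => ∃ h : W x, (⟨x, h⟩ : {x // W x}) ∈ u, fun x hx => hx.1, ?_⟩
    have h1 : Nat.card {x // ∃ h : W x, (⟨x, h⟩ : {x // W x}) ∈ u} = u.ncard := by
      rw [← Nat.card_coe_set_eq]
      refine Nat.card_congr ?_
      exact { toFun := fun x => ⟨⟨x.1, x.2.1⟩, x.2.2⟩
              invFun := fun y => ⟨y.1.1, y.1.2, y.2⟩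
              left_inv := fun x => rfl
              right_inv := fun y => rfl }
    rw [h1]
    unfold SimpleGraph.IsTutteViolator at hu
    rw [oc_eq G _ ((⊤ : (G.comap Subtype.val : SimpleGraph {x // W x}).Subgraph).deleteVerts u).coe
      (fun a => a.1.1) (fun a b hab => Subtype.ext (Subtype.ext hab)) ?_ ?_]
    · exact hu
    · intro x
      constructor
      · intro h
        push Not at h
        have hx : W x := h.1
        exact ⟨⟨⟨x, hx⟩, ⟨trivial, h.2 hx⟩⟩, rfl⟩
      · rintro ⟨a, rfl⟩
        rintro (h | ⟨h, h'⟩)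
        · exact h a.1.2
        · exact a.2.2 h'
    · intro a b
      rw [SimpleGraph.Subgraph.coe_adj, SimpleGraph.Subgraph.deleteVerts_adj]
      constructor
      · rintro ⟨_, _, _, _, h⟩
        exact h
      · intro h
        exact ⟨trivial, a.2.2, trivial, b.2.2, h⟩

/-- a set which is mapped to itself by an involution without fixed points is even -/
theorem even_inv (P : Fin n → Prop) (f : Fin n → Fin n) (hf : ∀ x, f (f x) = x)
    (hP : ∀ x, P x → P (f x) ∧ f x ≠ x) : Even (Nat.card {x // P x}) := by
  classical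
  have h1 : ∑ x ∈ Finset.univ.filter P, (1 : ZMod 2) = 0 := by
    refine Finset.sum_involution (fun x _ => f x) ?_ ?_ ?_ ?_
    · intro a _
      decide
    · intro a ha _
      exact (hP a (Finset.mem_filter.mp ha).2).2
    · intro a ha
      exact Finset.mem_filter.mpr ⟨Finset.mem_univ _, (hP a (Finset.mem_filter.mp ha).2).1⟩
    · intro a _
      exact hf a
  rw [Finset.sum_const, nsmul_eq_mul, mul_one, ZMod.natCast_eq_zero_iff_even] at h1
  rw [Nat.card_eq_fintype_card, Fintype.card_subtype]
  exact h1

/-- an odd component contains an uncovered vertex or a vertex with partner in `A` -/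
theorem odd_hit (G : SimpleGraph (Fin n)) (A : Fin n → Prop) {f : Fin n → Fin n} (hf : Mt G f)
    {v : Fin n} (hv : ¬ A v) (ho : Odd (Nat.card {w // rch G A v w})) :
    ∃ w, rch G A v w ∧ (f w = w ∨ A (f w)) := by
  by_contra hno
  push Not at hno
  have h1 : Even (Nat.card {w // rch G A v w}) := by
    refine even_inv (fun w => rch G A v w) f hf.1 ?_
    intro w hw
    obtain ⟨h1, h2⟩ := hno w hw
    exact ⟨hw.tail ⟨rch_not G A hw hv, h2, hf.2 w h1⟩, h1⟩
  rw [← Nat.not_even_iff_odd] at ho
  exact ho h1

/-- the easy inequality of Berge -/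
theorem berge_le (G : SimpleGraph (Fin n)) (A : Fin n → Prop) {f : Fin n → Fin n} (hf : Mt G f) :
    Nat.card {v // oddRep G A v} ≤ Nat.card {v // A v} + mis f := by
  classical
  have h1 : ∀ v : {v // oddRep G A v}, ∃ w, rch G A v.1 w ∧ (f w = w ∨ A (f w)) :=
    fun v => odd_hit G A hf v.2.1 v.2.2.2
  choose w hw hw' using h1
  have h2 : ∀ v, f (w v) ≠ w v → A (f (w v)) := fun v h => (hw' v).resolve_left h
  unfold mis
  rw [← Nat.card_sum]
  refine Nat.card_le_card_of_injective
    (fun v => if h : f (w v) = w v then Sum.inr ⟨w v, h⟩ else Sum.inl ⟨f (w v), h2 v h⟩) ?_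
  intro v v' hvv
  have h3 : w v = w v' := by
    by_cases h : f (w v) = w v
    · by_cases h' : f (w v') = w v'
      · simp only [dif_pos h, dif_pos h'] at hvv
        exact congrArg Subtype.val (Sum.inr.inj hvv)
      · simp only [dif_pos h, dif_neg h'] at hvv
        exact absurd hvv (by simp)
    · by_cases h' : f (w v') = w v'
      · simp only [dif_neg h, dif_pos h'] at hvv
        exact absurd hvv (by simp)
      · simp only [dif_neg h, dif_neg h'] at hvv
        have h4 : f (w v) = f (w v') := congrArg Subtype.val (Sum.inl.inj hvv)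
        rw [← hf.1 (w v), h4, hf.1]
  have h4 : rch G A v.1 v'.1 := (hw v).trans (h3 ▸ rch_symm G A (hw v'))
  exact Subtype.ext (le_antisymm (v.2.2.1 _ h4) (v'.2.2.1 _ (rch_symm G A h4)))

/-- removal of a set `X` from one component -/
theorem oc_split (G : SimpleGraph (Fin n)) (U X : Fin n → Prop) (v : Fin n) (hv : ¬ U v)
    (hX : ∀ x, X x → rch G U v x) :
    Nat.card {w // oddRep G U w ∧ ¬ rch G U v w} +
      Nat.card {w // oddRep G (fun x => ¬ rch G U v x ∨ X x) w} ≤
      Nat.card {w // oddRep G (fun x => U x ∨ X x) w} := by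
  rw [← cd_or]
  · refine cd_mono ?_
    rintro w (⟨hw, hw'⟩ | hw)
    · have h1 : ∀ y, rch G (fun x => U x ∨ X x) w y ↔ rch G U w y := by
        intro y
        constructor
        · intro h
          refine ReflTransGen.mono ?_ _ _ h
          rintro a b ⟨h1, h2, h3⟩
          exact ⟨fun h => h1 (Or.inl h), fun h => h2 (Or.inl h), h3⟩
        · intro h
          unfold rch at h
          induction h with
          | refl => exact ReflTransGen.refl
          | tail h1 h2 ih =>
            rename_i b c
            have h3 : ¬ X b := fun hx => hw' ((hX b hx).trans (rch_symm G U h1))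
            have h4 : ¬ X c := fun hx => hw' ((hX c hx).trans (rch_symm G U (h1.tail h2)))
            exact ih.tail ⟨by rintro (h | h); exacts [h2.1 h, h3 h],
              by rintro (h | h); exacts [h2.2.1 h, h4 h], h2.2.2⟩
      refine ⟨?_, ?_, ?_⟩
      · rintro (h | h)
        · exact hw.1 h
        · exact hw' (hX w h)
      · intro y hy
        exact hw.2.1 y ((h1 y).mp hy)
      · rw [cd_congr h1]
        exact hw.2.2
    · have hK : rch G U v w := by
        by_contra h
        exact hw.1 (Or.inl h)
      have hXw : ¬ X w := fun h => hw.1 (Or.inr h)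
      have h1 : ∀ y, rch G (fun x => U x ∨ X x) w y ↔ rch G (fun x => ¬ rch G U v x ∨ X x) w y := by
        intro y
        constructor
        · intro h
          have h2 : rch G (fun x => ¬ rch G U v x ∨ X x) w y ∧ rch G U v y := by
            unfold rch at h
            induction h with
            | refl => exact ⟨ReflTransGen.refl, hK⟩
            | tail h1 h2 ih =>
              rename_i b c
              have h3 : rch G U v c := ih.2.tail
                ⟨fun h => h2.1 (Or.inl h), fun h => h2.2.1 (Or.inl h), h2.2.2⟩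
              refine ⟨ih.1.tail ⟨?_, ?_, h2.2.2⟩, h3⟩
              · rintro (h | h)
                · exact h ih.2
                · exact h2.1 (Or.inr h)
              · rintro (h | h)
                · exact h h3
                · exact h2.2.1 (Or.inr h)
          exact h2.1
        · intro h
          refine ReflTransGen.mono ?_ _ _ h
          rintro a b ⟨h1, h2, h3⟩
          have ha : rch G U v a := by
            by_contra h
            exact h1 (Or.inl h)
          have hb : rch G U v b := by
            by_contra h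
            exact h2 (Or.inl h)
          refine ⟨?_, ?_, h3⟩
          · rintro (h | h)
            · exact rch_not G U ha hv h
            · exact h1 (Or.inr h)
          · rintro (h | h)
            · exact rch_not G U hb hv h
            · exact h2 (Or.inr h)
      refine ⟨?_, ?_, ?_⟩
      · rintro (h | h)
        · exact rch_not G U hK hv h
        · exact hXw h
      · intro y hy
        exact hw.2.1 y ((h1 y).mp hy)
      · rw [cd_congr h1]
        exact hw.2.2
  · rintro w ⟨_, hw'⟩ hw
    exact hw.1 (Or.inl hw')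

/-- A maximal barrier of a graph of deficiency two: all components of its complement are odd and factor-critical. -/
theorem exists_barrier (G : SimpleGraph (Fin n)) (h1 : ∃ f, Mt G f ∧ mis f = 2) (h2 : ∀ f, Mt G f → 2 ≤ mis f) :
    ∃ U : Fin n → Prop, Nat.card {v // oddRep G U v} = Nat.card {v // U v} + 2 ∧
      (∀ v, ¬ U v → ∃ r, oddRep G U r ∧ rch G U r v) ∧
      (∀ v, ¬ U v → ∃ f : Fin n → Fin n, (∀ x, f (f x) = x) ∧ (∀ x, ¬ (rch G U v x ∧ x ≠ v) → f x = x) ∧
        ∀ x, rch G U v x → x ≠ v → G.Adj x (f x)) := by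
  classical
  obtain ⟨f0, hf0, hm0⟩ := h1
  -- parity of `n`
  have hn : n % 2 = 0 := by
    have h3 : Even (Nat.card {x // ¬ f0 x = x}) := by
      refine even_inv (fun x => ¬ f0 x = x) f0 hf0.1 ?_
      intro x hx
      refine ⟨?_, hx⟩
      rw [hf0.1]
      exact fun h => hx h.symm
    have h4 := cd_compl (fun x => f0 x = x)
    unfold mis at hm0
    rw [Nat.even_iff] at h3
    omega
  -- the upper bound
  have hub : ∀ U : Fin n → Prop, Nat.card {v // oddRep G U v} ≤ Nat.card {v // U v} + 2 := by
    intro U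
    have := berge_le G U hf0
    rw [hm0] at this
    exact this
  -- the family
  have hne : ∃ U : Fin n → Prop, Nat.card {v // U v} + 2 ≤ Nat.card {v // oddRep G U v} := by
    rcases tutte_on G (fun _ => True) with ⟨f, hf1, -, hf3⟩ | ⟨S, -, hS⟩
    · exfalso
      have h3 := h2 f ⟨hf1, fun x _ => hf3 x trivial⟩
      have h4 : mis f = 0 := by
        unfold mis
        rw [Nat.card_eq_zero]
        left
        constructor
        rintro ⟨x, hx⟩
        exact (hf3 x trivial).ne hx.symm
      omega
    · have h3 : (fun x => ¬ True ∨ S x) = S := by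
        funext x
        simp
      rw [h3] at hS
      have h4 := oc_parity G S
      exact ⟨S, by omega⟩
  obtain ⟨U0, hU0⟩ := hne
  obtain ⟨U, hU, hmax⟩ := Finset.exists_max_image
    (Finset.univ.filter fun U : Fin n → Prop => Nat.card {v // U v} + 2 ≤ Nat.card {v // oddRep G U v})
    (fun U => Nat.card {v // U v}) ⟨U0, Finset.mem_filter.mpr ⟨Finset.mem_univ _, hU0⟩⟩
  have hU1 : Nat.card {v // U v} + 2 ≤ Nat.card {v // oddRep G U v} := (Finset.mem_filter.mp hU).2
  have hU2 : Nat.card {v // oddRep G U v} = Nat.card {v // U v} + 2 := le_antisymm (hub U) hU1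
  have hmax' : ∀ V : Fin n → Prop, Nat.card {v // V v} + 2 ≤ Nat.card {v // oddRep G V v} →
      Nat.card {v // V v} ≤ Nat.card {v // U v} :=
    fun V hV => hmax V (Finset.mem_filter.mpr ⟨Finset.mem_univ _, hV⟩)
  -- the main inequality
  have main : ∀ (v : Fin n) (X : Fin n → Prop), ¬ U v → (∀ x, X x → rch G U v x) → X v →
      Nat.card {w // oddRep G U w ∧ ¬ rch G U v w} +
        Nat.card {w // oddRep G (fun x => ¬ rch G U v x ∨ X x) w} ≤
        Nat.card {v // U v} + Nat.card {x // X x} + 1 := by
    intro v X hv hX hXv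
    have h3 := oc_split G U X v hv hX
    have h4 : Nat.card {x // U x ∨ X x} = Nat.card {x // U x} + Nat.card {x // X x} :=
      cd_or fun x hx hx' => rch_not G U (hX x hx') hv hx
    have h5 : 0 < Nat.card {x // X x} := by
      have : Nonempty {x // X x} := ⟨⟨v, hXv⟩⟩
      exact Nat.card_pos
    by_contra h6
    have h7 := hmax' (fun x => U x ∨ X x) (by omega)
    omega
  have hpar : ∀ (v : Fin n) (X : Fin n → Prop), (∀ x, X x → rch G U v x) →
      (Nat.card {w // oddRep G (fun x => ¬ rch G U v x ∨ X x) w} + Nat.card {x // X x} +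
        Nat.card {x // rch G U v x}) % 2 = 0 := by
    intro v X hX
    have h3 := oc_parity G (fun x => ¬ rch G U v x ∨ X x)
    have h4 : Nat.card {x // ¬ rch G U v x ∨ X x} = Nat.card {x // ¬ rch G U v x} + Nat.card {x // X x} :=
      cd_or fun x hx hx' => hx (hX x hx')
    have h5 := cd_compl (fun x => rch G U v x)
    omega
  -- all components are odd
  have hodd : ∀ v, ¬ U v → Odd (Nat.card {x // rch G U v x}) := by
    intro v hv
    by_contra hev
    rw [Nat.odd_iff] at hev
    have h3 := main v (fun x => x = v) hv (by rintro x rfl; exact ReflTransGen.refl) rfl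
    have h4 := hpar v (fun x => x = v) (by rintro x rfl; exact ReflTransGen.refl)
    rw [cd_one] at h3 h4
    have h5 : Nat.card {w // oddRep G U w ∧ ¬ rch G U v w} = Nat.card {w // oddRep G U w} := by
      refine cd_congr fun w => ⟨fun h => h.1, fun h => ⟨h, fun hr => ?_⟩⟩
      have h6 : Nat.card {x // rch G U v x} = Nat.card {x // rch G U w x} :=
        cd_congr fun x => ⟨fun hx => (rch_symm G U hr).trans hx, fun hx => hr.trans hx⟩
      have h7 := h.2.2
      rw [← h6, Nat.odd_iff] at h7
      exact hev h7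
    omega
  have hrep : ∀ v, ¬ U v → ∃ r, oddRep G U r ∧ rch G U r v := by
    intro v hv
    obtain ⟨r, hr, hmin⟩ := Finset.exists_min_image (Finset.univ.filter fun w => rch G U v w) id
      ⟨v, Finset.mem_filter.mpr ⟨Finset.mem_univ _, ReflTransGen.refl⟩⟩
    have hvr : rch G U v r := (Finset.mem_filter.mp hr).2
    have hr' : ¬ U r := rch_not G U hvr hv
    refine ⟨r, ⟨hr', ?_, hodd r hr'⟩, rch_symm G U hvr⟩
    intro w hw
    exact hmin w (Finset.mem_filter.mpr ⟨Finset.mem_univ _, hvr.trans hw⟩)
  refine ⟨U, hU2, hrep, ?_⟩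
  intro v hv
  rcases tutte_on G (fun x => rch G U v x ∧ x ≠ v) with ⟨f, hf1, hf2, hf3⟩ | ⟨S, hS1, hS2⟩
  · exact ⟨f, hf1, hf2, fun x hx hx' => hf3 x ⟨hx, hx'⟩⟩
  · exfalso
    have hX : ∀ x, (S x ∨ x = v) → rch G U v x := by
      rintro x (hx | rfl)
      · exact (hS1 x hx).1
      · exact ReflTransGen.refl
    have h3 := main v (fun x => S x ∨ x = v) hv hX (Or.inr rfl)
    have h4 := hpar v (fun x => S x ∨ x = v) hX
    have h5 : Nat.card {x // S x ∨ x = v} = Nat.card {x // S x} + 1 := by
      rw [cd_or fun x hx hx' => (hS1 x hx).2 hx', cd_one]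
    have h6 : (fun x => ¬ (rch G U v x ∧ x ≠ v) ∨ S x) = (fun x => ¬ rch G U v x ∨ (S x ∨ x = v)) := by
      funext x
      apply propext
      tauto
    rw [h6] at hS2
    have h7 := hodd v hv
    rw [Nat.odd_iff] at h7
    have h8 : Nat.card {w // oddRep G U w} ≤ Nat.card {w // oddRep G U w ∧ ¬ rch G U v w} + 1 := by
      obtain ⟨r, hr, hrv⟩ := hrep v hv
      rw [← cd_one r, ← cd_or (P := fun w => oddRep G U w ∧ ¬ rch G U v w) (Q := fun w => w = r)]
      · refine cd_mono fun w hw => ?_
        by_cases hw' : rch G U v w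
        · right
          have h9 : rch G U r w := hrv.trans hw'
          exact le_antisymm (hw.2.1 _ (rch_symm G U h9)) (hr.2.1 _ h9)
        · exact Or.inl ⟨hw, hw'⟩
      · rintro w ⟨_, hw⟩ rfl
        exact hw (rch_symm G U hrv)
    omega

end ZER
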