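import Pool.Agent.Lib.MP_0087d5_lcZE.ZDefs
import Pool.Agent.Lib.MP_0087d5_lcZE.H4
import Pool.Agent.Lib.MP_0087d5_lcZE.ZT

/-!
# The inequality of Gallai and Edmonds for graphs of deficiency two
-/

set_option autoImplicit false

namespace ZER

open Relation

variable {n : ℕ}

private theorem gei_symm {G : SimpleGraph (Fin n)} {A : Fin n → Prop} {v w : Fin n} (h : rch G A v w) :
    rch G A w v := by
  unfold rch at *
  induction h with
  | refl => exact ReflTransGen.refl
  | tail h1 h2 ih => exact ReflTransGen.head ⟨h2.2.1, h2.1, h2.2.2.symm⟩ ih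

private theorem gei_trans {G : SimpleGraph (Fin n)} {A : Fin n → Prop} {u v w : Fin n} (h1 : rch G A u v)
    (h2 : rch G A v w) : rch G A u w := ReflTransGen.trans h1 h2

private theorem gei_step {G : SimpleGraph (Fin n)} {A : Fin n → Prop} {u v w : Fin n} (h1 : rch G A u v)
    (hv : ¬ A v) (hw : ¬ A w) (h2 : G.Adj v w) : rch G A u w := ReflTransGen.tail h1 ⟨hv, hw, h2⟩

private theorem gei_not {G : SimpleGraph (Fin n)} {A : Fin n → Prop} {v w : Fin n} (h : rch G A v w) (hv : ¬ A v) :
    ¬ A w := by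
  unfold rch at h
  induction h with
  | refl => exact hv
  | tail h1 h2 ih => exact h2.2.1

private theorem gei_uniq {G : SimpleGraph (Fin n)} {A : Fin n → Prop} {r s v : Fin n} (hr : oddRep G A r)
    (hs : oddRep G A s) (h1 : rch G A r v) (h2 : rch G A s v) : r = s :=
  le_antisymm (hr.2.1 s (gei_trans h1 (gei_symm h2))) (hs.2.1 r (gei_trans h2 (gei_symm h1)))

private theorem gei_even (P : Fin n → Prop) (f : Fin n → Fin n) (h1 : ∀ x, f (f x) = x) (h2 : ∀ x, P x → P (f x))
    (h3 : ∀ x, P x → f x ≠ x) : Even (Nat.card {x // P x}) := by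
  classical
  rw [Nat.card_eq_fintype_card, Fintype.card_subtype]
  have h : ∑ _x ∈ Finset.univ.filter P, (1 : ZMod 2) = 0 := by
    refine Finset.sum_involution (fun a _ => f a) ?_ ?_ ?_ ?_
    · intro a _
      decide
    · intro a ha _
      exact h3 a (Finset.mem_filter.mp ha).2
    · intro a ha
      exact Finset.mem_filter.mpr ⟨Finset.mem_univ _, h2 a (Finset.mem_filter.mp ha).2⟩
    · intro a _
      exact h1 a
  rw [Finset.sum_const, nsmul_eq_mul, mul_one] at h
  exact (ZMod.natCast_eq_zero_iff_even).mp h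

/-- the injective choices given by a matching -/
private theorem gei_fwd (G : SimpleGraph (Fin n)) (U : Fin n → Prop)
    (hc : Nat.card {v // oddRep G U v} = Nat.card {v // U v} + 2)
    (f : Fin n → Fin n) (hf : Mt G f) (hm : mis f = 2) (v : Fin n) (hv : f v = v) :
    ∃ r : {r // oddRep G U r}, rch G U r.1 v ∧ ∃ φ : {u // U u} → {r // oddRep G U r}, Function.Injective φ ∧
      (∀ u, ∃ x, rch G U (φ u).1 x ∧ G.Adj u.1 x) ∧ ∀ u, φ u ≠ r := by
  classical
  have hx : ∀ r : {r // oddRep G U r}, ∃ x, rch G U r.1 x ∧ (U (f x) ∨ f x = x) := by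
    intro r
    by_contra hno
    push Not at hno
    refine Nat.not_even_iff_odd.mpr r.2.2.2 (gei_even _ f hf.1 ?_ ?_)
    · intro x hx
      exact gei_step hx (gei_not hx r.2.1) (hno x hx).1 (hf.2 x (hno x hx).2)
    · intro x hx
      exact (hno x hx).2
  choose x hx1 hx2 using hx
  have finj : Function.Injective f := fun a b hab => by rw [← hf.1 a, hab, hf.1 b]
  have xinj : Function.Injective x := by
    intro r s hrs
    have h := hx1 s
    rw [← hrs] at h
    exact Subtype.ext (gei_uniq r.2 s.2 (hx1 r) h)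
  have ginj : Function.Injective fun r => f (x r) := finj.comp xinj
  rw [Nat.card_eq_fintype_card, Nat.card_eq_fintype_card, Fintype.card_subtype U] at hc
  have hm' : (Finset.univ.filter fun y => f y = y).card = 2 := by
    rw [← hm, mis, Nat.card_eq_fintype_card, Fintype.card_subtype]
  have himg : (Finset.univ.image fun r => f (x r)) ⊆ Finset.univ.filter U ∪ Finset.univ.filter fun y => f y = y := by
    intro y hy
    obtain ⟨r, _, rfl⟩ := Finset.mem_image.mp hy
    rcases hx2 r with h | h
    · exact Finset.mem_union_left _ (Finset.mem_filter.mpr ⟨Finset.mem_univ _, h⟩)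
    · exact Finset.mem_union_right _ (Finset.mem_filter.mpr ⟨Finset.mem_univ _, by rw [h, h]⟩)
  have hci : (Finset.univ.image fun r => f (x r)).card = (Finset.univ.filter U).card + 2 := by
    rw [Finset.card_image_of_injective _ ginj, Finset.card_univ, hc]
  have hu := Finset.card_union_add_card_inter (Finset.univ.filter U) (Finset.univ.filter fun y => f y = y)
  have hle := Finset.card_le_card himg
  have heq : (Finset.univ.image fun r => f (x r)) = Finset.univ.filter U ∪ Finset.univ.filter fun y => f y = y :=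
    Finset.eq_of_subset_of_card_le himg (by omega)
  have hint : (Finset.univ.filter U ∩ Finset.univ.filter fun y => f y = y) = ∅ := by
    rw [← Finset.card_eq_zero]
    omega
  have hvU : ¬ U v := by
    intro h
    have : v ∈ (Finset.univ.filter U ∩ Finset.univ.filter fun y => f y = y) :=
      Finset.mem_inter.mpr ⟨Finset.mem_filter.mpr ⟨Finset.mem_univ _, h⟩, Finset.mem_filter.mpr ⟨Finset.mem_univ _, hv⟩⟩
    rw [hint] at this
    exact absurd this (Finset.notMem_empty _)
  have hvi : v ∈ (Finset.univ.image fun r => f (x r)) := by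
    rw [heq]
    exact Finset.mem_union_right _ (Finset.mem_filter.mpr ⟨Finset.mem_univ _, hv⟩)
  obtain ⟨r, _, hr⟩ := Finset.mem_image.mp hvi
  have hxr : x r = v := finj (by rw [hr, hv])
  have hφ : ∀ u : {u // U u}, ∃ s, f (x s) = u.1 := by
    intro u
    have : u.1 ∈ (Finset.univ.image fun r => f (x r)) := by
      rw [heq]
      exact Finset.mem_union_left _ (Finset.mem_filter.mpr ⟨Finset.mem_univ _, u.2⟩)
    obtain ⟨s, _, hs⟩ := Finset.mem_image.mp this
    exact ⟨s, hs⟩
  choose φ hφ using hφ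
  refine ⟨r, hxr ▸ hx1 r, φ, ?_, ?_, ?_⟩
  · intro a b hab
    apply Subtype.ext
    rw [← hφ a, hab, hφ b]
  · intro u
    refine ⟨x (φ u), hx1 _, ?_⟩
    have h1 : f (x (φ u)) ≠ x (φ u) := by
      intro h
      refine gei_not (hx1 (φ u)) (φ u).2.1 ?_
      rw [← h, hφ u]
      exact u.2
    have h2 := hf.2 _ h1
    rw [hφ u] at h2
    exact h2.symm
  · intro u hu2
    apply hvU
    have h1 := hφ u
    rw [hu2, hxr, hv] at h1
    rw [h1]
    exact u.2

/-- the matching given by injective choices -/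
private theorem gei_bwd (G : SimpleGraph (Fin n)) (h2 : ∀ f, Mt G f → 2 ≤ mis f) (U : Fin n → Prop)
    (hc : Nat.card {v // oddRep G U v} = Nat.card {v // U v} + 2)
    (hrep : ∀ v, ¬ U v → ∃ r, oddRep G U r ∧ rch G U r v)
    (hpm : ∀ v, ¬ U v → ∃ f : Fin n → Fin n, (∀ x, f (f x) = x) ∧ (∀ x, ¬ (rch G U v x ∧ x ≠ v) → f x = x) ∧
        ∀ x, rch G U v x → x ≠ v → G.Adj x (f x))
    (r : {r // oddRep G U r}) (v : Fin n) (hv : rch G U r.1 v)
    (φ : {u // U u} → {r // oddRep G U r}) (hinj : Function.Injective φ)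
    (hR : ∀ u, ∃ x, rch G U (φ u).1 x ∧ G.Adj u.1 x) (hne : ∀ u, φ u ≠ r) : DD G v := by
  classical
  have hroot : ∀ s : {r // oddRep G U r}, ∃ y, rch G U s.1 y ∧ (s = r → y = v) ∧ ∀ u, φ u = s → G.Adj u.1 y := by
    intro s
    by_cases h1 : s = r
    · subst h1
      exact ⟨v, hv, fun _ => rfl, fun u hu => absurd hu (hne u)⟩
    · by_cases h3 : ∃ u, φ u = s
      · obtain ⟨u, hu⟩ := h3
        obtain ⟨y, hy1, hy2⟩ := hR u
        refine ⟨y, hu ▸ hy1, fun h => absurd h h1, ?_⟩
        intro u' hu'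
        have : u' = u := hinj (hu'.trans hu.symm)
        rw [this]
        exact hy2
      · exact ⟨s.1, ReflTransGen.refl, fun h => absurd h h1, fun u hu => absurd ⟨u, hu⟩ h3⟩
  choose root hr1 hr2 hr3 using hroot
  have hrootU : ∀ s, ¬ U (root s) := fun s => gei_not (hr1 s) s.2.1
  have hm : ∀ s : {r // oddRep G U r}, ∃ m : Fin n → Fin n, (∀ x, m (m x) = x) ∧
      (∀ x, ¬ (rch G U s.1 x ∧ x ≠ root s) → m x = x) ∧ ∀ x, rch G U s.1 x → x ≠ root s → G.Adj x (m x) := by
    intro s
    obtain ⟨m, hm1, hm2, hm3⟩ := hpm (root s) (hrootU s)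
    refine ⟨m, hm1, ?_, ?_⟩
    · intro x hx
      exact hm2 x fun h => hx ⟨gei_trans (hr1 s) h.1, h.2⟩
    · intro x hx hne'
      exact hm3 x (gei_trans (gei_symm (hr1 s)) hx) hne'
  choose m hm1 hm2 hm3 using hm
  have hρ : ∀ x, ¬ U x → ∃ s : {r // oddRep G U r}, rch G U s.1 x := fun x hx => by
    obtain ⟨s, hs1, hs2⟩ := hrep x hx
    exact ⟨⟨s, hs1⟩, hs2⟩
  choose ρ hρ using hρ
  have hρu : ∀ x (hx : ¬ U x) (s : {r // oddRep G U r}), rch G U s.1 x → ρ x hx = s := fun x hx s hs =>
    Subtype.ext (gei_uniq (ρ x hx).2 s.2 (hρ x hx) hs)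
  -- the matching
  let F : Fin n → Fin n := fun x =>
    if hx : U x then root (φ ⟨x, hx⟩)
    else if x = root (ρ x hx) then (if h : ∃ u, φ u = ρ x hx then h.choose.1 else x)
    else m (ρ x hx) x
  have F1 : ∀ x (hx : U x), F x = root (φ ⟨x, hx⟩) := fun x hx => by
    simp only [F]
    rw [dif_pos hx]
  have F2 : ∀ u : {u // U u}, F (root (φ u)) = u.1 := by
    intro u
    have h0 : ρ (root (φ u)) (hrootU (φ u)) = φ u := hρu _ _ _ (hr1 _)
    have h3 : ∃ u', φ u' = ρ (root (φ u)) (hrootU (φ u)) := ⟨u, h0.symm⟩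
    simp only [F]
    rw [dif_neg (hrootU (φ u)), if_pos (by rw [h0]), dif_pos h3]
    exact congrArg Subtype.val (hinj (h3.choose_spec.trans h0))
  have F3 : ∀ s : {r // oddRep G U r}, (¬ ∃ u, φ u = s) → F (root s) = root s := by
    intro s hs
    have h0 : ρ (root s) (hrootU s) = s := hρu _ _ _ (hr1 _)
    simp only [F]
    rw [dif_neg (hrootU s), if_pos (by rw [h0]), dif_neg (by rw [h0]; exact hs)]
  have F4 : ∀ (s : {r // oddRep G U r}) x, rch G U s.1 x → x ≠ root s → F x = m s x := by
    intro s x hx hne'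
    have hxU : ¬ U x := gei_not hx s.2.1
    have h0 : ρ x hxU = s := hρu _ _ _ hx
    simp only [F]
    rw [dif_neg hxU, if_neg (by rw [h0]; exact hne'), h0]
  have hms : ∀ (s : {r // oddRep G U r}) x, rch G U s.1 x → x ≠ root s → rch G U s.1 (m s x) ∧ m s x ≠ root s := by
    intro s x hx hne'
    by_contra hno
    have h1 := hm2 s (m s x) hno
    rw [hm1 s x] at h1
    have h3 := hm3 s x hx hne'
    rw [← h1] at h3
    exact G.loopless.irrefl _ h3
  have hMt : Mt G F := by
    constructor
    · intro x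
      by_cases hx : U x
      · rw [F1 x hx, F2]
      · by_cases hxr : x = root (ρ x hx)
        · by_cases h : ∃ u, φ u = ρ x hx
          · obtain ⟨u, hu⟩ := h
            rw [hxr, ← hu, F2, F1 u.1 u.2]
          · have h3 := F3 (ρ x hx) h
            rw [← hxr] at h3
            rw [h3, h3]
        · have h3 := F4 (ρ x hx) x (hρ x hx) hxr
          obtain ⟨h4, h5⟩ := hms (ρ x hx) x (hρ x hx) hxr
          rw [h3, F4 (ρ x hx) _ h4 h5, hm1]
    · intro x hFx
      by_cases hx : U x
      · rw [F1 x hx]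
        exact hr3 _ ⟨x, hx⟩ rfl
      · by_cases hxr : x = root (ρ x hx)
        · by_cases h : ∃ u, φ u = ρ x hx
          · obtain ⟨u, hu⟩ := h
            have h3 := F2 u
            rw [hu, ← hxr] at h3
            rw [h3]
            have h4 := hr3 _ u hu
            rw [← hxr] at h4
            exact h4.symm
          · have h3 := F3 (ρ x hx) h
            rw [← hxr] at h3
            exact absurd h3 hFx
        · rw [F4 (ρ x hx) x (hρ x hx) hxr]
          exact hm3 _ x (hρ x hx) hxr
  have hfix : ∀ x, F x = x → ∃ s : {r // oddRep G U r}, (¬ ∃ u, φ u = s) ∧ root s = x := by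
    intro x hFx
    by_cases hx : U x
    · rw [F1 x hx] at hFx
      exact absurd (hFx ▸ hx) (hrootU _)
    · by_cases hxr : x = root (ρ x hx)
      · refine ⟨ρ x hx, ?_, hxr.symm⟩
        rintro ⟨u, hu⟩
        have h3 := F2 u
        rw [hu, ← hxr, hFx] at h3
        exact hx (h3 ▸ u.2)
      · exfalso
        rw [F4 (ρ x hx) x (hρ x hx) hxr] at hFx
        have h3 := hm3 _ x (hρ x hx) hxr
        rw [hFx] at h3
        exact G.loopless.irrefl _ h3
  have hmis : mis F ≤ 2 := by
    have h3 : Nat.card {s : {r // oddRep G U r} // ¬ ∃ u, φ u = s} = 2 := by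
      rw [Nat.card_eq_fintype_card, Fintype.card_subtype_compl,
        Fintype.card_subtype fun s : {r // oddRep G U r} => ∃ u, φ u = s]
      have h4 : (Finset.univ.filter fun s => ∃ u, φ u = s) = Finset.univ.image φ := by
        ext s
        simp
      rw [h4, Finset.card_image_of_injective _ hinj, Finset.card_univ]
      rw [Nat.card_eq_fintype_card, Nat.card_eq_fintype_card] at hc
      omega
    rw [← h3]
    choose g hg1 hg2 using hfix
    refine Nat.card_le_card_of_injective (fun x : {x // F x = x} =>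
      (⟨g x.1 x.2, hg1 x.1 x.2⟩ : {s : {r // oddRep G U r} // ¬ ∃ u, φ u = s})) ?_
    intro a b hab
    have h4 : g a.1 a.2 = g b.1 b.2 := congrArg Subtype.val hab
    apply Subtype.ext
    rw [← hg2 a.1 a.2, ← hg2 b.1 b.2, h4]
  refine ⟨F, hMt, le_antisymm hmis (h2 F hMt), ?_⟩
  have h3 := F3 r fun ⟨u, hu⟩ => hne u hu
  rw [hr2 r rfl] at h3
  exact h3

/-- PROOF. `V = Fin n`, `n` is even. (1) By `SimpleGraph.tutte` (Mathlib) there is a set `U` with `odd (G - U) > |U|`, so `≥ |U| + 2` by parity; `≤ |U| + 2` for all `U` because of the matching in `h1`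
(each odd component contains an uncovered vertex or a vertex whose partner is in `U`). Take `U` of maximal size with `odd (G - U) = |U| + 2`. (2) All components `K` of `G - U` are odd and `K - v` has a perfect matching for
all `v ∈ K`: an even component with a vertex `u` gives the larger set `U ∪ {u}`; if `K` is odd and `K - v` has no perfect matching, Tutte for `K - v` gives `S ⊆ K - v` with `odd (K - v - S) ≥ |S| + 2`, and `U ∪ {v} ∪ S` is larger.
(3) Let `𝒟` be the set of the components `K` such that there is an injective map from `U` to the components different from `K` which sends each `u` to a component with a neighbour of `u`. Then `DD G v` iff `v` is in a component in `𝒟`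
(⇐ by (2); ⇒ by counting: a matching with 2 uncovered vertices leaves one uncovered vertex in each of two odd components, and covers `U` by edges to different components, never to these two).
(4) By Hall (`Finset.all_card_le_biUnion_card_iff_exists_injective`), for `K ∉ 𝒟` there is `S_K ⊆ U` with `K ∈ N(S_K)` and `|N(S_K)| = |S_K|` (`N(S)` = the components with a neighbour in `S`; `|N(S)| ≥ |S|` for all `S ⊆ U` by the matching in `h1`).
Sets with `|N(S)| = |S|` are closed under union (submodularity). For the union `S` of the `S_K`: `N(S)` is the complement of `𝒟`, so `NA G (DD G) ⊆ U - S` and `|𝒟| = |U| + 2 - |S| ≥ |NA G (DD G)| + 2`,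
and each component in `𝒟` is an odd component of the complement of `NA G (DD G)`. -/
theorem ge_ineq (G : SimpleGraph (Fin n)) (h1 : ∃ f, Mt G f ∧ mis f = 2) (h2 : ∀ f, Mt G f → 2 ≤ mis f) :
    Viol G (NA G (DD G)) := by
  classical
  obtain ⟨U, hc, hrep, hpm⟩ := exists_barrier G h1 h2
  let R : {u // U u} → {r // oddRep G U r} → Prop := fun u r => ∃ x, rch G U r.1 x ∧ G.Adj u.1 x
  have hbase : ∃ φ : {u // U u} → {r // oddRep G U r}, Function.Injective φ ∧ ∀ a, R a (φ a) := by
    obtain ⟨f, hf, hm⟩ := h1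
    have hne : Nonempty {x // f x = x} := by
      have : 0 < Nat.card {x // f x = x} := by
        have hm' : Nat.card {x // f x = x} = 2 := hm
        omega
      exact (Nat.card_pos_iff.mp this).1
    obtain ⟨v, hv⟩ := hne
    obtain ⟨r, _, φ, h3, h4, _⟩ := gei_fwd G U hc f hf hm v hv
    exact ⟨φ, h3, h4⟩
  obtain ⟨S, hS1, hS2⟩ := hall_tight R hbase
  let Dc : {r // oddRep G U r} → Prop := fun b =>
    ∃ f : {u // U u} → {r // oddRep G U r}, Function.Injective f ∧ (∀ a, R a (f a)) ∧ ∀ a, f a ≠ b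
  have hS1' : ∀ b, (∃ a ∈ S, R a b) ↔ ¬ Dc b := hS1
  have hDD : ∀ v, DD G v ↔ ∃ r : {r // oddRep G U r}, rch G U r.1 v ∧ Dc r := by
    intro v
    constructor
    · rintro ⟨f, hf, hm, hv⟩
      obtain ⟨r, h3, φ, h4, h5, h6⟩ := gei_fwd G U hc f hf hm v hv
      exact ⟨r, h3, φ, h4, h5, h6⟩
    · rintro ⟨r, h3, φ, h4, h5, h6⟩
      exact gei_bwd G h2 U hc hrep hpm r v h3 φ h4 h5 h6
  have hNA : ∀ a, NA G (DD G) a → ∃ h : U a, (⟨a, h⟩ : {u // U u}) ∉ S := by
    rintro a ⟨ha, u, hu, hadj⟩
    obtain ⟨r, hr1, hr2⟩ := (hDD u).mp hu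
    have hUa : U a := by
      by_contra hUa
      refine ha ((hDD a).mpr ⟨r, gei_step hr1 (gei_not hr1 r.2.1) hUa hadj.symm, hr2⟩)
    refine ⟨hUa, fun haS => ?_⟩
    exact ((hS1' r).mp ⟨⟨a, hUa⟩, haS, u, hr1, hadj⟩) hr2
  have hDDn : ∀ a, NA G (DD G) a → ¬ DD G a := fun a ha => ha.1
  have hc1 : Nat.card {v // NA G (DD G) v} + S.card ≤ Nat.card {v // U v} := by
    have h3 : Nat.card {u : {u // U u} // u ∉ S} = Nat.card {v // U v} - S.card := by
      rw [Nat.card_eq_fintype_card, Nat.card_eq_fintype_card, Fintype.card_subtype_compl, Fintype.card_coe]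
    have h4 : Nat.card {v // NA G (DD G) v} ≤ Nat.card {u : {u // U u} // u ∉ S} := by
      refine Nat.card_le_card_of_injective (fun a : {v // NA G (DD G) v} =>
        (⟨⟨a.1, (hNA a.1 a.2).choose⟩, (hNA a.1 a.2).choose_spec⟩ : {u : {u // U u} // u ∉ S})) ?_
      intro a b hab
      apply Subtype.ext
      have h5 := congrArg (fun z : {u : {u // U u} // u ∉ S} => z.1.1) hab
      exact h5
    have h5 : S.card ≤ Nat.card {v // U v} := by
      rw [Nat.card_eq_fintype_card]
      exact Finset.card_le_univ S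
    omega
  have hc2 : Nat.card {b // Dc b} + S.card = Nat.card {v // oddRep G U v} := by
    rw [← hS2]
    have h3 : Nat.card {b : {r // oddRep G U r} // ∃ a ∈ S, R a b} = Nat.card {b // ¬ Dc b} :=
      Nat.card_congr (Equiv.subtypeEquivRight hS1')
    rw [h3, Nat.card_eq_fintype_card, Nat.card_eq_fintype_card, Nat.card_eq_fintype_card,
      Fintype.card_subtype_compl]
    have h4 := Fintype.card_subtype_le Dc
    omega
  have hsame : ∀ b : {r // oddRep G U r}, Dc b → ∀ w, rch G (NA G (DD G)) b.1 w ↔ rch G U b.1 w := by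
    intro b hb w
    constructor
    · intro h
      induction h with
      | refl => exact ReflTransGen.refl
      | tail h3 h4 ih =>
        rename_i x y
        have hxD : DD G x := (hDD x).mpr ⟨b, ih, hb⟩
        have hyD : DD G y := by
          by_contra hyD
          exact h4.2.1 ⟨hyD, x, hxD, h4.2.2.symm⟩
        obtain ⟨s, hs1, hs2⟩ := (hDD y).mp hyD
        exact gei_step ih (gei_not ih b.2.1) (gei_not hs1 s.2.1) h4.2.2
    · intro h
      have h3 : ∀ w, rch G U b.1 w → ¬ NA G (DD G) w := fun w hw hN => hN.1 ((hDD w).mpr ⟨b, hw, hb⟩)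
      clear hS2 hc2 hc1
      induction h with
      | refl => exact ReflTransGen.refl
      | tail h5 h4 ih =>
        exact gei_step ih (h3 _ h5) (h3 _ (ReflTransGen.tail h5 h4)) h4.2.2
  have hodd : ∀ b : {r // oddRep G U r}, Dc b → oddRep G (NA G (DD G)) b.1 := by
    intro b hb
    refine ⟨fun h => h.1 ((hDD b.1).mpr ⟨b, ReflTransGen.refl, hb⟩), ?_, ?_⟩
    · intro w hw
      exact b.2.2.1 w ((hsame b hb w).mp hw)
    · have h3 : Nat.card {w // rch G (NA G (DD G)) b.1 w} = Nat.card {w // rch G U b.1 w} :=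
        Nat.card_congr (Equiv.subtypeEquivRight (hsame b hb))
      rw [h3]
      exact b.2.2.2
  have hc3 : Nat.card {b // Dc b} ≤ Nat.card {v // oddRep G (NA G (DD G)) v} := by
    refine Nat.card_le_card_of_injective (fun b : {b // Dc b} =>
      (⟨b.1.1, hodd b.1 b.2⟩ : {v // oddRep G (NA G (DD G)) v})) ?_
    intro a b hab
    have h3 := congrArg Subtype.val hab
    exact Subtype.ext (Subtype.ext h3)
  unfold Viol
  omega

end ZER
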