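import Pool.Agent.Lib.MP_0087d5_lcZE.ZS
import Pool.Agent.Lib.MP_0087d5_lcZE.ZG
import Pool.Agent.Lib.MP_0087d5_lcMT.CB

/-!
# Certificates for graphs without a perfect matching: definability
-/

set_option autoImplicit false
set_option linter.all false

namespace ZER

open Relation Pool.Agent Pool.Agent.PMNC

/-- the tested graphs -/
def TT (n : ℕ) (G : SimpleGraph (Fin n)) (e : Fin n × (Fin n × Fin n)) : SimpleGraph (Fin n) :=
  ade (uni G (e.1 : ℕ)) e.2.1 e.2.2

theorem def_TT : DefP (E := fun n => (Fin n × (Fin n × Fin n)) × (Fin n × Fin n))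
    (fun n G X y => (TT n G y.1).Adj y.2.1 y.2.2) := by
  have k : Tm (E := fun n => (Fin n × (Fin n × Fin n)) × (Fin n × Fin n)) (F := fun n => Fin n) (fun n y => y.1.1) :=
    Tm.fst (F := fun n => Fin n) (H := fun n => Fin n × Fin n) (Tm.fst (F := fun n => Fin n × (Fin n × Fin n)) (H := fun n => Fin n × Fin n) Tm.id)
  have uv : Tm (E := fun n => (Fin n × (Fin n × Fin n)) × (Fin n × Fin n)) (F := fun n => Fin n × Fin n) (fun n y => y.1.2) :=
    Tm.snd (F := fun n => Fin n) (H := fun n => Fin n × Fin n) (Tm.fst (F := fun n => Fin n × (Fin n × Fin n)) (H := fun n => Fin n × Fin n) Tm.id)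
  have xy : Tm (E := fun n => (Fin n × (Fin n × Fin n)) × (Fin n × Fin n)) (F := fun n => Fin n × Fin n) (fun n y => y.2) :=
    Tm.snd (F := fun n => Fin n × (Fin n × Fin n)) (H := fun n => Fin n × Fin n) Tm.id
  have u := Tm.fst (F := fun n => Fin n) (H := fun n => Fin n) uv
  have v := Tm.snd (F := fun n => Fin n) (H := fun n => Fin n) uv
  have x := Tm.fst (F := fun n => Fin n) (H := fun n => Fin n) xy
  have y := Tm.snd (F := fun n => Fin n) (H := fun n => Fin n) xy
  refine (DefP.and (DefP.not (DefP.eqFin x y)) (DefP.or (DefP.and (DefP.not (DefP.eqFin x y)) (DefP.or (DefP.adj x y)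
    (DefP.or (DefP.lt x k) (DefP.lt y k)))) (DefP.or (DefP.and (DefP.eqFin x u) (DefP.eqFin y v))
      (DefP.and (DefP.eqFin x v) (DefP.eqFin y u))))).congr fun n G X z => ?_
  exact Iff.rfl

section
variable {E : ℕ → Type} [Env E] {A : ∀ n : ℕ, SimpleGraph (Fin n) → E n → Fin n → Prop}

theorem def_rch (hA : DefP (E := fun n => E n × Fin n) (fun n G X y => A n G y.1 y.2)) :
    DefP (E := fun n => E n × (Fin n × Fin n)) (fun n G X y => rch G (A n G y.1) y.2.1 y.2.2) := by
  unfold rch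
  refine DefP.rtc (E := fun n => E n × (Fin n × Fin n)) (S := fun n => Fin n)
    (R := fun n G X y a b => ¬ A n G y.1 a ∧ ¬ A n G y.1 b ∧ G.Adj a b) ?_
    (Tm.fst (F := fun n => Fin n) (H := fun n => Fin n) (Tm.snd Tm.id)) (Tm.snd (F := fun n => Fin n) (H := fun n => Fin n) (Tm.snd Tm.id))
  have e : Tm (E := fun n => (E n × (Fin n × Fin n)) × (Fin n × Fin n)) (F := E) (fun n y => y.1.1) := Tm.fst (Tm.fst Tm.id)
  have a : Tm (E := fun n => (E n × (Fin n × Fin n)) × (Fin n × Fin n)) (F := fun n => Fin n) (fun n y => y.2.1) :=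
    Tm.fst (F := fun n => Fin n) (H := fun n => Fin n) (Tm.snd Tm.id)
  have b : Tm (E := fun n => (E n × (Fin n × Fin n)) × (Fin n × Fin n)) (F := fun n => Fin n) (fun n y => y.2.2) :=
    Tm.snd (F := fun n => Fin n) (H := fun n => Fin n) (Tm.snd Tm.id)
  exact DefP.and (DefP.not (DefP.comp (F := fun n => E n × Fin n) hA (Tm.pair (H := fun n => Fin n) e a)))
    (DefP.and (DefP.not (DefP.comp (F := fun n => E n × Fin n) hA (Tm.pair (H := fun n => Fin n) e b))) (DefP.adj a b))

theorem def_oddRep (hA : DefP (E := fun n => E n × Fin n) (fun n G X y => A n G y.1 y.2)) :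
    DefP (E := fun n => E n × Fin n) (fun n G X y => oddRep G (A n G y.1) y.2) := by
  have hr := def_rch hA
  have e : Tm (E := fun n => (E n × Fin n) × Fin n) (F := E) (fun n y => y.1.1) := Tm.fst (Tm.fst Tm.id)
  have a : Tm (E := fun n => (E n × Fin n) × Fin n) (F := fun n => Fin n) (fun n y => y.1.2) := Tm.snd (Tm.fst Tm.id)
  have b : Tm (E := fun n => (E n × Fin n) × Fin n) (F := fun n => Fin n) (fun n y => y.2) := Tm.snd Tm.id
  have hr' : DefP (E := fun n => (E n × Fin n) × Fin n) (fun n G X y => rch G (A n G y.1.1) y.1.2 y.2) :=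
    DefP.comp (F := fun n => E n × (Fin n × Fin n)) (f := fun n (y : (E n × Fin n) × Fin n) => (y.1.1, (y.1.2, y.2))) hr
      (Tm.pair (H := fun n => Fin n × Fin n) e (Tm.pair (F := fun n => Fin n) (H := fun n => Fin n) a b))
  unfold oddRep
  refine DefP.and (DefP.not hA) (DefP.and (DefP.allFin (DefP.imp hr' (DefP.le a b))) (DefP.oddCard (S := fun n => Fin n) hr'))

theorem def_viol (hA : DefP (E := fun n => E n × Fin n) (fun n G X y => A n G y.1 y.2)) :
    DefP (fun n G X x => Viol G (A n G x)) := by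
  unfold Viol
  exact DefP.cardLt (S := fun n => Fin n) (T := fun n => Fin n) hA (def_oddRep hA)

end

/-- the second test -/
def NoP (P : ∀ n : ℕ, SimpleGraph (Fin n) → Fin n × (Fin n × Fin n) → Prop) (n : ℕ) (G : SimpleGraph (Fin n)) : Prop :=
  Odd (Nat.card {a : Fin n // True}) ∨ ∃ k : Fin n, Viol G (NA (uni G (k : ℕ)) fun v => ∃ u, P n G (k, (u, v)))

theorem def_NoP {P : ∀ n : ℕ, SimpleGraph (Fin n) → Fin n × (Fin n × Fin n) → Prop}
    (hP : DefP (E := fun n => Fin n × (Fin n × Fin n)) (fun n G X e => P n G e)) :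
    DefP (E := fun _ => Unit) (fun n G X _ => NoP P n G) := by
  unfold NoP
  refine DefP.or (DefP.oddCard (S := fun n => Fin n) (DefP.const _)) (DefP.exFin ?_)
  refine def_viol (E := fun n => Unit × Fin n) (A := fun n G y => NA (uni G (y.2 : ℕ)) fun v => ∃ u, P n G (y.2, (u, v))) ?_
  have hD : DefP (E := fun n => (Unit × Fin n) × Fin n) (fun n G X y => ∃ u, P n G (y.1.2, (u, y.2))) := by
    refine DefP.exFin (DefP.comp (F := fun n => Fin n × (Fin n × Fin n)) (f := fun n (y : ((Unit × Fin n) × Fin n) × Fin n) => (y.1.1.2, (y.2, y.1.2))) hP ?_)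
    exact Tm.pair (F := fun n => Fin n) (H := fun n => Fin n × Fin n)
      (Tm.snd (F := fun _ => Unit) (H := fun n => Fin n) (Tm.fst (Tm.fst Tm.id)))
      (Tm.pair (F := fun n => Fin n) (H := fun n => Fin n) (Tm.snd Tm.id) (Tm.snd (Tm.fst Tm.id)))
  unfold NA
  refine DefP.and (DefP.not hD) (DefP.exFin (DefP.and ?_ ?_))
  · refine DefP.comp (E := fun n => ((Unit × Fin n) × Fin n) × Fin n) (F := fun n => (Unit × Fin n) × Fin n)
      (f := fun n (y : ((Unit × Fin n) × Fin n) × Fin n) => (y.1.1, y.2)) hD ?_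
    exact Tm.pair (F := fun n => Unit × Fin n) (H := fun n => Fin n) (Tm.fst (Tm.fst Tm.id)) (Tm.snd Tm.id)
  · have k : Tm (E := fun n => ((Unit × Fin n) × Fin n) × Fin n) (F := fun n => Fin n) (fun n y => y.1.1.2) :=
      Tm.snd (F := fun _ => Unit) (H := fun n => Fin n) (Tm.fst (Tm.fst Tm.id))
    have x : Tm (E := fun n => ((Unit × Fin n) × Fin n) × Fin n) (F := fun n => Fin n) (fun n y => y.1.2) := Tm.snd (Tm.fst Tm.id)
    have y : Tm (E := fun n => ((Unit × Fin n) × Fin n) × Fin n) (F := fun n => Fin n) (fun n y => y.2) := Tm.snd Tm.id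
    refine (DefP.and (DefP.not (DefP.eqFin x y)) (DefP.or (DefP.adj x y) (DefP.or (DefP.lt x k) (DefP.lt y k)))).congr fun n G X z => ?_
    exact Iff.rfl

end ZER
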